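import Pool.Agent.H399Z.Frog.Absorb

set_option autoImplicit false

/-!
The law of (top vertex, exit point) of simple random walk on the tree cut at level `n`.
-/

namespace Pool.Agent.H109Z.FrogGW

open MeasureTheory Function Finset
open scoped ENNReal NNReal

lemma ta_step_cases (Z : V → ℕ) (z : V) (a : ℝ) :
    (∃ c < Z z, step Z z a = c :: z) ∨ step Z z a = z.tail := by
  unfold step
  split_ifs with h
  · exact Or.inl ⟨_, h, rfl⟩
  · exact Or.inr rfl

lemma ta_tail_inTree {Z : V → ℕ} {z : V} (h : InTree Z z) : InTree Z z.tail := by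
  cases z with
  | nil => exact h
  | cons i v => exact (inTree_cons.1 h).1

lemma ta_step_inTree {Z : V → ℕ} {z : V} (h : InTree Z z) (a : ℝ) : InTree Z (step Z z a) := by
  rcases ta_step_cases Z z a with ⟨c, hc, h1⟩ | h1
  · rw [h1]; exact InTree.child z c h hc
  · rw [h1]; exact ta_tail_inTree h

lemma ta_step_len (Z : V → ℕ) (z : V) (a : ℝ) : (step Z z a).length ≤ z.length + 1 := by
  rcases ta_step_cases Z z a with ⟨c, _, h1⟩ | h1
  · rw [h1]; simp
  · rw [h1]; simp; omega

lemma ta_avg_cons (Z : V → ℕ) (i : ℕ) (v : V) (f : V → ℝ≥0∞) :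
    ∫⁻ a, f (step Z (i :: v) a) ∂unif =
      (∑ c ∈ range (Z (i :: v)), f (c :: i :: v) + f v) * ((Z (i :: v) + 1 : ℕ) : ℝ≥0∞)⁻¹ := by
  have hz : deg Z (i :: v) = Z (i :: v) + 1 := by simp [deg]
  have := unif_floor (d := deg Z (i :: v)) (by omega)
    fun j => f (if j < Z (i :: v) then j :: i :: v else (i :: v).tail)
  unfold step
  rw [this, hz, Finset.sum_range_succ, if_neg (lt_irrefl _), List.tail_cons]
  congr 2
  exact Finset.sum_congr rfl fun j hj => by rw [if_pos (mem_range.1 hj)]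

lemma ta_avg_nil (Z : V → ℕ) (hZ : 0 < Z []) (f : V → ℝ≥0∞) :
    ∫⁻ a, f (step Z [] a) ∂unif = (∑ c ∈ range (Z []), f [c]) * ((Z [] : ℕ) : ℝ≥0∞)⁻¹ := by
  have hz : deg Z [] = Z [] := by simp [deg]
  have := unif_floor (d := deg Z []) (by omega)
    fun j => f (if j < Z [] then j :: [] else ([] : V).tail)
  unfold step
  rw [this, hz]
  congr 1
  exact Finset.sum_congr rfl fun j hj => by rw [if_pos (mem_range.1 hj)]

/-- indicator of a vertex -/
noncomputable def taInd (w x : V) : ℝ≥0∞ := if x = w then 1 else 0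

lemma ta_meas (Z : V → ℕ) (z w : V) :
    unif {a | step Z z a = w} = ∫⁻ a, taInd w (step Z z a) ∂unif := by
  rw [← lintegral_indicator_one (disc_step Z z w)]
  congr 1
  funext a
  by_cases h : step Z z a = w <;> simp [h, taInd]

lemma ta_up (Z : V → ℕ) (i : ℕ) (v : V) : unif {a | step Z (i :: v) a = v} ≠ 0 := by
  rw [ta_meas, ta_avg_cons]
  simp [taInd]

lemma ta_down (Z : V → ℕ) {c : ℕ} {z : V} (hc : c < Z z) : unif {a | step Z z a = c :: z} ≠ 0 := by
  rw [ta_meas]
  cases z with
  | nil =>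
    rw [ta_avg_nil Z (by omega)]
    refine mul_ne_zero ?_ (by simp)
    rw [Ne, Finset.sum_eq_zero_iff]
    intro h
    simpa [taInd] using h c (mem_range.2 hc)
  | cons i v =>
    rw [ta_avg_cons]
    refine mul_ne_zero ?_ (by simp)
    rw [Ne, add_eq_zero, Finset.sum_eq_zero_iff]
    intro h
    simpa [taInd] using h.1 c (mem_range.2 hc)

lemma ta_finite (Z : V → ℕ) (n : ℕ) : {z | InTree Z z ∧ z.length ≤ n}.Finite := by
  induction n with
  | zero =>
    refine (Set.finite_singleton []).subset fun z hz => ?_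
    simpa using hz.2
  | succ n ih =>
    have h1 : (⋃ v ∈ {z | InTree Z z ∧ z.length ≤ n}, (fun c => c :: v) '' {c | c < Z v}).Finite :=
      ih.biUnion fun v _ => (Set.finite_lt_nat _).image _
    refine ((Set.finite_singleton []).union h1).subset fun z hz => ?_
    cases z with
    | nil => simp
    | cons c v =>
      right
      have h2 := inTree_cons.1 hz.1
      have h3 : v.length ≤ n := by have := hz.2; simp at this; omega
      simp only [Set.mem_iUnion]
      exact ⟨v, ⟨h2.1, h3⟩, c, h2.2, rfl⟩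

lemma ta_AW_le (Z : V → ℕ) {φ : V → ℝ≥0∞} (hφ : ∀ e, φ e ≤ 1) :
    ∀ (h : ℕ) (w : V), AW Z h w φ ≤ ENNReal.ofReal (gh h (sh w Z))
  | 0, w => by simpa [AW, gh] using hφ w
  | h + 1, w => by
    have hg : ∀ i < Z w, 0 ≤ gh h (sh (i :: w) Z) := fun i _ => (gh_box h _).1
    rw [AW, gh_succ_sh, div_eq_mul_one_div (Cs _ _), ENNReal.ofReal_mul (Cs_nonneg hg)]
    gcongr
    rw [Cs, ENNReal.ofReal_sum_of_nonneg fun i hi => hg i (mem_range.1 hi)]
    exact Finset.sum_le_sum fun i _ => ta_AW_le Z hφ h (i :: w)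

lemma ta_comb_le (Z : V → ℕ) {φ : V → ℝ≥0∞} (hφ : ∀ e, φ e ≤ 1) (h : ℕ) (w : V) {x : ℝ≥0∞}
    (hx : x ≤ 1) : AW Z h w φ + ENNReal.ofReal (1 - gh h (sh w Z)) * x ≤ 1 := by
  have hb := gh_box h (sh w Z)
  calc _ ≤ ENNReal.ofReal (gh h (sh w Z)) + ENNReal.ofReal (1 - gh h (sh w Z)) * 1 := by
        gcongr
        exact ta_AW_le Z hφ h w
    _ = 1 := by
        rw [mul_one, ← ENNReal.ofReal_add hb.1 (by linarith [hb.2])]
        simp

lemma ta_sum_one_sub {g : ℕ → ℝ} {k : ℕ} (h1 : ∀ i < k, g i ≤ 1) (A : ℕ → ℝ≥0∞) (H : ℝ≥0∞) :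
    ∑ c ∈ range k, (A c + ENNReal.ofReal (1 - g c) * H) =
      ∑ c ∈ range k, A c + ENNReal.ofReal (k - Cs g k) * H := by
  rw [Finset.sum_add_distrib, ← Finset.sum_mul,
    ← ENNReal.ofReal_sum_of_nonneg fun i hi => by linarith [h1 i (mem_range.1 hi)]]
  simp [Cs]

lemma ta_harm {g : ℕ → ℝ} {k : ℕ} (h0 : ∀ i < k, 0 ≤ g i) (h1 : ∀ i < k, g i ≤ 1)
    (A : ℕ → ℝ≥0∞) (H U : ℝ≥0∞)
    (hH : H = (∑ c ∈ range k, A c) * ENNReal.ofReal (1 / (1 + Cs g k)) +
      ENNReal.ofReal (1 - Cs g k / (1 + Cs g k)) * U) :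
    (∑ c ∈ range k, (A c + ENNReal.ofReal (1 - g c) * H) + U) * ((k + 1 : ℕ) : ℝ≥0∞)⁻¹ = H := by
  have hC := Cs_nonneg h0
  have hC1 := Cs_le h1
  have e1 : 1 - Cs g k / (1 + Cs g k) = 1 / (1 + Cs g k) := by field_simp; ring
  have e2 : ∑ c ∈ range k, A c + U = ENNReal.ofReal (1 + Cs g k) * H := by
    rw [hH, e1, mul_comm (ENNReal.ofReal (1 / (1 + Cs g k))) U, ← add_mul, mul_comm, mul_assoc,
      ← ENNReal.ofReal_mul (by positivity), one_div_mul_cancel (by positivity),
      ENNReal.ofReal_one, mul_one]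
  rw [ta_sum_one_sub h1, add_right_comm, e2, ← add_mul,
    ← ENNReal.ofReal_add (by positivity) (by linarith)]
  have e3 : ENNReal.ofReal (1 + Cs g k + (k - Cs g k)) = ((k + 1 : ℕ) : ℝ≥0∞) := by
    rw [← ENNReal.ofReal_natCast]; congr 1; push_cast; ring
  rw [e3, mul_comm, ← mul_assoc, ENNReal.inv_mul_cancel (by simp) (by simp), one_mul]

/-! ### the walk with its highest vertex -/

/-- one step of the pair (position, highest vertex) -/
noncomputable def taTau (Z : V → ℕ) (s : V × V) (a : ℝ) : V × V :=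
  (step Z s.1 a, if s.1 = s.2 ∧ step Z s.1 a = s.2.tail then step Z s.1 a else s.2)

/-- absorbing states -/
def taAb (n : ℕ) (s : V × V) : Prop := s.1 = [] ∨ s.1.length = n

/-- admissible states -/
def taG (Z : V → ℕ) (n : ℕ) : Set (V × V) :=
  {s | InTree Z s.1 ∧ s.1.length ≤ n ∧ s.2 <:+ s.1 ∧ (s.2 = [] → s.1 = [])}

/-- the mark of a final state -/
def taMark (x : V) : Option (V × V) → Option (V × V)
  | none => some (x, x)
  | some s => if s.1 = [] then none else some (s.2, s.1)

/-- the mark of the walk -/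
noncomputable def taMk (Z : V → ℕ) (n : ℕ) (x : V) (u : ℕ → ℝ) : Option (V × V) :=
  taMark x (abFin (taTau Z) (taAb n) (x, x) u)

/-- the value started from a fresh vertex -/
noncomputable def taL (Z : V → ℕ) (n : ℕ) (F : Option (V × V) → ℝ≥0∞) : V → ℝ≥0∞
  | [] => F none
  | i :: v => AW Z (n - (i :: v).length) (i :: v) (fun e => F (some (i :: v, e))) +
      ENNReal.ofReal (1 - gh (n - (i :: v).length) (sh (i :: v) Z)) * taL Z n F v

/-- the value at position `z` with highest vertex `y` -/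
noncomputable def taH (Z : V → ℕ) (n : ℕ) (F : Option (V × V) → ℝ≥0∞) (y : V) : V → ℝ≥0∞
  | [] => F none
  | i :: v => AW Z (n - (i :: v).length) (i :: v) (fun e => F (some (y, e))) +
      ENNReal.ofReal (1 - gh (n - (i :: v).length) (sh (i :: v) Z)) *
        (if i :: v = y then taL Z n F v else taH Z n F y v)

lemma taH_self (Z : V → ℕ) (n : ℕ) (F : Option (V × V) → ℝ≥0∞) (v : V) :
    taH Z n F v v = taL Z n F v := by
  cases v with
  | nil => rfl
  | cons i v => rw [taH, taL, if_pos rfl]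

lemma taL_le (Z : V → ℕ) (n : ℕ) {F : Option (V × V) → ℝ≥0∞} (hF : ∀ a, F a ≤ 1) :
    ∀ v, taL Z n F v ≤ 1
  | [] => hF none
  | _ :: v => ta_comb_le Z (fun _ => hF _) _ _ (taL_le Z n hF v)

lemma taH_le (Z : V → ℕ) (n : ℕ) {F : Option (V × V) → ℝ≥0∞} (hF : ∀ a, F a ≤ 1) (y : V) :
    ∀ v, taH Z n F y v ≤ 1
  | [] => hF none
  | i :: v => by
    refine ta_comb_le Z (fun _ => hF _) _ _ ?_
    split_ifs
    · exact taL_le Z n hF v
    · exact taH_le Z n hF y v

lemma disc_taTau (Z : V → ℕ) (s : V × V) : Disc (taTau Z s) :=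
  (disc_step Z s.1).map fun w => (w, if s.1 = s.2 ∧ w = s.2.tail then w else s.2)

lemma ta_suffix_tail {y z : V} (h : y <:+ z) (hne : z ≠ y) : y <:+ z.tail := by
  cases z with
  | nil => exact h
  | cons i v => exact (List.suffix_cons_iff.1 h).resolve_left (Ne.symm hne)

lemma taG_finite (Z : V → ℕ) (n : ℕ) : (taG Z n).Finite := by
  have h1 : (⋃ z ∈ {z | InTree Z z ∧ z.length ≤ n},
      (fun y => (z, y)) '' {y | y ∈ z.tails}).Finite :=
    (ta_finite Z n).biUnion fun z _ => (List.finite_toSet _).image _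
  refine h1.subset fun s hs => ?_
  simp only [Set.mem_iUnion]
  exact ⟨s.1, ⟨hs.1, hs.2.1⟩, s.2, by simpa using hs.2.2.1, rfl⟩

lemma taG_closed (Z : V → ℕ) (n : ℕ) : ∀ s ∈ taG Z n, ¬ taAb n s → ∀ a, taTau Z s a ∈ taG Z n := by
  rintro ⟨z, y⟩ ⟨h1, h2, h3, h4⟩ hab a
  simp only [taAb, not_or] at hab
  have h5 := ta_step_len Z z a
  refine ⟨ta_step_inTree h1 a, by simp only [taTau] at *; omega, ?_, ?_⟩
  · simp only [taTau]
    split_ifs with h
    · exact List.suffix_refl _
    · rcases ta_step_cases Z z a with ⟨c, _, h6⟩ | h6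
      · rw [h6]; exact h3.trans (List.suffix_cons c z)
      · rw [h6] at h ⊢
        exact ta_suffix_tail h3 fun h7 => h ⟨h7, by rw [h7]⟩
  · simp only [taTau]
    split_ifs with h
    · exact id
    · exact fun h7 => absurd (h4 h7) hab.1

lemma ta_reach (Z : V → ℕ) (n : ℕ) : ∀ z y : V, ∃ s', taAb n s' ∧
    Relation.ReflTransGen (fun p q => ¬ taAb n p ∧ unif {a | taTau Z p a = q} ≠ 0) (z, y) s' := by
  intro z
  induction z with
  | nil => exact fun y => ⟨([], y), Or.inl rfl, Relation.ReflTransGen.refl⟩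
  | cons i v ih =>
    intro y
    by_cases h : taAb n (i :: v, y)
    · exact ⟨_, h, Relation.ReflTransGen.refl⟩
    · obtain ⟨s', h1, h2⟩ := ih (if i :: v = y ∧ v = y.tail then v else y)
      refine ⟨s', h1, Relation.ReflTransGen.head ⟨h, fun h0 => ta_up Z i v ?_⟩ h2⟩
      refine measure_mono_null (fun a ha => ?_) h0
      have ha' : step Z (i :: v) a = v := ha
      simp only [Set.mem_ofPred_eq, taTau, ha']

lemma ta_law (Z : V → ℕ) (n : ℕ) {F : Option (V × V) → ℝ≥0∞} (hF : ∀ a, F a ≤ 1) {x : V}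
    (hx : InTree Z x) (hn : x.length ≤ n) : ∫⁻ u, F (taMk Z n x u) ∂UU = taL Z n F x := by
  rw [← taH_self]
  refine ab_law (disc_taTau Z) (taG_finite Z n) (taG_closed Z n) (fun s _ => ta_reach Z n s.1 s.2)
    (fun s => taH Z n F s.2 s.1) (fun s _ => taH_le Z n hF _ _) ?_ (fun o => F (taMark x o)) ?_
    (s := (x, x)) ⟨hx, hn, List.suffix_refl _, id⟩
  · rintro ⟨z, y⟩ ⟨h1, h2, h3, h4⟩ hab
    simp only [taAb, not_or] at hab
    cases z with
    | nil => exact absurd rfl hab.1
    | cons i v =>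
      obtain ⟨h, hh⟩ : ∃ h, n - (i :: v).length = h + 1 := ⟨n - (i :: v).length - 1, by
        simp only at h2 hab; omega⟩
      have hav := ta_avg_cons Z i v
        fun w => taH Z n F (if i :: v = y ∧ w = y.tail then w else y) w
      simp only [taTau]
      rw [hav]
      have hne : ∀ c, c :: i :: v ≠ y := by
        intro c hc
        have := h3.length_le
        rw [← hc] at this
        simp at this
      have e1 : ∀ c, (if i :: v = y ∧ c :: i :: v = y.tail then c :: i :: v else y) = y := by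
        intro c
        split_ifs with hc
        · have := congrArg List.length hc.2
          rw [← hc.1] at this
          simp at this
          omega
        · rfl
      have e2 : taH Z n F (if i :: v = y ∧ v = y.tail then v else y) v =
          if i :: v = y then taL Z n F v else taH Z n F y v := by
        by_cases hc : i :: v = y
        · rw [if_pos hc, if_pos ⟨hc, by rw [← hc]; rfl⟩, taH_self]
        · rw [if_neg hc, if_neg fun h' => hc h'.1]
      have e3 : ∀ c, n - (c :: i :: v).length = h := by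
        intro c
        simp only [List.length_cons] at hh ⊢
        omega
      have e4 : ∀ c, taH Z n F y (c :: i :: v) =
          AW Z h (c :: i :: v) (fun e => F (some (y, e))) +
            ENNReal.ofReal (1 - gh h (sh (c :: i :: v) Z)) * taH Z n F y (i :: v) := by
        intro c
        rw [taH, e3, if_neg (hne c)]
      simp only [e1, e2, e4]
      refine ta_harm (g := fun c => gh h (sh (c :: i :: v) Z)) (fun c _ => (gh_box h _).1)
        (fun c _ => (gh_box h _).2) _ _ _ ?_
      rw [taH, hh, AW, gh_succ_sh]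
  · rintro ⟨z, y⟩ _ hab
    cases z with
    | nil => simp [taMark, taH]
    | cons i v =>
      have h0 : n - (i :: v).length = 0 := by
        rcases hab with h | h
        · cases h
        · simp only at h; omega
      simp only [taMark, taH, h0, AW, gh]
      simp

lemma ta_inv (Z : V → ℕ) (n : ℕ) (x : V) (u : ℕ → ℝ) (k : ℕ) :
    ((abPath (taTau Z) (taAb n) (x, x) u k).1 = wk Z x u k ∨
      taAb n (abPath (taTau Z) (taAb n) (x, x) u k)) ∧
    (abPath (taTau Z) (taAb n) (x, x) u k).2 <:+ (abPath (taTau Z) (taAb n) (x, x) u k).1 ∧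
    ∀ w, (abPath (taTau Z) (taAb n) (x, x) u k).2 <:+ w →
      w <:+ (abPath (taTau Z) (taAb n) (x, x) u k).1 → ∃ j, wk Z x u j = w := by
  induction k with
  | zero =>
    refine ⟨Or.inl rfl, List.suffix_refl _, fun w h1 h2 => ⟨0, ?_⟩⟩
    exact h1.eq_of_length_le h2.length_le
  | succ k ih =>
    rw [abPath]
    set s := abPath (taTau Z) (taAb n) (x, x) u k with hs
    by_cases hab : taAb n s
    · rw [abStep_ab hab]
      exact ⟨Or.inr hab, ih.2⟩
    · rw [abStep_not hab]
      obtain ⟨h1, h2, h3⟩ := ih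
      have h1' : s.1 = wk Z x u k := h1.resolve_right hab
      have h4 : step Z s.1 (u k) = wk Z x u (k + 1) := by rw [h1', wk]
      refine ⟨Or.inl h4, ?_⟩
      simp only [taTau]
      split_ifs with h
      · refine ⟨List.suffix_refl _, fun w h5 h6 => ⟨k + 1, ?_⟩⟩
        rw [← h4]
        exact h5.eq_of_length_le h6.length_le
      · rcases ta_step_cases Z s.1 (u k) with ⟨c, _, h6⟩ | h6
        · refine ⟨by rw [h6]; exact h2.trans (List.suffix_cons c _), fun w h7 h8 => ?_⟩
          rw [h6] at h8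
          rcases List.suffix_cons_iff.1 h8 with h9 | h9
          · exact ⟨k + 1, by rw [← h4, h6, h9]⟩
          · exact h3 w h7 h9
        · rw [h6] at h ⊢
          exact ⟨ta_suffix_tail h2 fun h7 => h ⟨h7, by rw [h7]⟩,
            fun w h7 h8 => h3 w h7 (h8.trans (List.tail_suffix _))⟩

theorem A_thm : AStmt := by
  intro Z n
  refine ⟨taMk Z n, fun x => (disc_abFin (disc_taTau Z) (x, x)).map (taMark x), fun u => ?_,
    fun i v h hv hl F hF => ?_, fun x => Filter.Eventually.of_forall fun u => ?_⟩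
  · rw [taMk, abFin_eq (Ab := taAb n) (k := 0) (Or.inl rfl)]
    simp [taMark, abPath]
  · have hl' : v.length + 1 + h = n := by simpa using hl
    rw [ta_law Z n hF hv (by omega), ta_law Z n hF (inTree_cons.1 hv).1 (by omega), taL]
    have : n - (i :: v).length = h := by omega
    rw [this]
  · unfold taMk
    cases hf : abFin (taTau Z) (taAb n) (x, x) u with
    | none =>
      refine ⟨fun y e h z h1 h2 => ⟨0, ?_⟩, fun h => by simp [taMark] at h⟩
      simp only [taMark, Option.some.injEq, Prod.mk.injEq] at h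
      rw [← h.1] at h1
      rw [← h.2] at h2
      exact h1.eq_of_length_le h2.length_le
    | some s =>
      obtain ⟨k, -, hk⟩ := abFin_some hf
      have hi := ta_inv Z n x u k
      rw [hk] at hi
      simp only [taMark]
      split_ifs with h
      · refine ⟨fun y e h' => (by cases h'), fun _ => ?_⟩
        rw [← h]
        exact hi.2.2 s.1 hi.2.1 (List.suffix_refl _)
      · refine ⟨fun y e h' z h1 h2 => ?_, fun h' => by cases h'⟩
        simp only [Option.some.injEq, Prod.mk.injEq] at h'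
        exact hi.2.2 z (h'.1 ▸ h1) (h'.2 ▸ h2)

/-! ### the walk from the root -/

/-- the value of the reflected walk -/
noncomputable def taH0 (Z : V → ℕ) (n : ℕ) (φ : V → ℝ≥0∞) : V → ℝ≥0∞
  | [] => AW Z n [] φ * ENNReal.ofReal (1 / gh n Z)
  | i :: v => AW Z (n - (i :: v).length) (i :: v) φ +
      ENNReal.ofReal (1 - gh (n - (i :: v).length) (sh (i :: v) Z)) * taH0 Z n φ v

lemma taH0_le (Z : V → ℕ) (n : ℕ) (hg : 0 < gh n Z) {φ : V → ℝ≥0∞} (hφ : ∀ e, φ e ≤ 1) :
    ∀ v, taH0 Z n φ v ≤ 1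
  | [] => by
    have := ta_AW_le Z hφ n []
    rw [sh_nil] at this
    rw [taH0]
    refine (mul_le_mul_left this _).trans ?_
    rw [← ENNReal.ofReal_mul hg.le, mul_one_div_cancel hg.ne', ENNReal.ofReal_one]
  | _ :: v => ta_comb_le Z hφ _ _ (taH0_le Z n hg hφ v)

lemma ta_child_pos {Z : V → ℕ} {h : ℕ} {w : V} (hg : 0 < gh (h + 1) (sh w Z)) :
    ∃ c < Z w, 0 < gh h (sh (c :: w) Z) := by
  by_contra hc
  push Not at hc
  have h0 : Cs (fun i => gh h (sh (i :: w) Z)) (Z w) = 0 :=
    Finset.sum_eq_zero fun i hi => le_antisymm (hc i (mem_range.1 hi)) (gh_box h _).1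
  rw [gh_succ_sh, h0] at hg
  simp at hg

lemma ta_reach_down (Z : V → ℕ) (n : ℕ) : ∀ (h : ℕ) (w : V), w.length + h = n →
    0 < gh h (sh w Z) → ∃ s' : V, s'.length = n ∧
    Relation.ReflTransGen (fun p q : V => ¬ p.length = n ∧ unif {a | step Z p a = q} ≠ 0) w s'
  | 0, w, hw, _ => ⟨w, hw, Relation.ReflTransGen.refl⟩
  | h + 1, w, hw, hg => by
    obtain ⟨c, hc, hg'⟩ := ta_child_pos hg
    obtain ⟨s', h1, h2⟩ := ta_reach_down Z n h (c :: w) (by simp; omega) hg'
    exact ⟨s', h1, Relation.ReflTransGen.head ⟨by omega, ta_down Z hc⟩ h2⟩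

lemma ta_reach0 (Z : V → ℕ) (n : ℕ) (hg : 0 < gh n Z) : ∀ z : V, ∃ s' : V, s'.length = n ∧
    Relation.ReflTransGen (fun p q : V => ¬ p.length = n ∧ unif {a | step Z p a = q} ≠ 0) z s' := by
  intro z
  induction z with
  | nil => exact ta_reach_down Z n n [] (by simp) (by rwa [sh_nil])
  | cons i v ih =>
    by_cases h : (i :: v).length = n
    · exact ⟨_, h, Relation.ReflTransGen.refl⟩
    · obtain ⟨s', h1, h2⟩ := ih
      exact ⟨s', h1, Relation.ReflTransGen.head ⟨h, ta_up Z i v⟩ h2⟩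

lemma ta_law0 (Z : V → ℕ) (n : ℕ) (hg : 0 < gh n Z) {φ : V → ℝ≥0∞} (hφ : ∀ e, φ e ≤ 1) :
    ∫⁻ u, φ ((abFin (step Z) (fun z : V => z.length = n) [] u).getD []) ∂UU = taH0 Z n φ [] := by
  refine ab_law (disc_step Z) (ta_finite Z n) ?_ (fun s _ => ta_reach0 Z n hg s)
    (taH0 Z n φ) (fun s _ => taH0_le Z n hg hφ _) ?_ (fun o => φ (o.getD [])) ?_
    (s := []) ⟨InTree.root, by simp⟩
  · rintro z ⟨h1, h2⟩ hab a
    have h5 := ta_step_len Z z a
    exact ⟨ta_step_inTree h1 a, by omega⟩
  · rintro z ⟨h1, h2⟩ hab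
    cases z with
    | nil =>
      obtain ⟨h, rfl⟩ : ∃ h, n = h + 1 := ⟨n - 1, by simp at hab; omega⟩
      obtain ⟨c, hc, -⟩ := ta_child_pos (w := []) (by rwa [sh_nil])
      have hk : 0 < Z [] := by omega
      rw [ta_avg_nil Z hk]
      have e4 : ∀ c, taH0 Z (h + 1) φ [c] = AW Z h [c] φ +
          ENNReal.ofReal (1 - gh h (sh [c] Z)) * taH0 Z (h + 1) φ [] := by
        intro c
        rw [taH0.eq_2]
        simp
      simp only [e4]
      have h0 : ∀ i < Z [], 0 ≤ gh h (sh [i] Z) := fun c _ => (gh_box h _).1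
      have h1 : ∀ i < Z [], gh h (sh [i] Z) ≤ 1 := fun c _ => (gh_box h _).2
      rw [ta_sum_one_sub (g := fun c => gh h (sh [c] Z)) h1]
      have hC := Cs_nonneg (g := fun c => gh h (sh [c] Z)) h0
      have hC1 := Cs_le (g := fun c => gh h (sh [c] Z)) h1
      have hgs : gh (h + 1) Z = Cs (fun c => gh h (sh [c] Z)) (Z []) /
          (1 + Cs (fun c => gh h (sh [c] Z)) (Z [])) := rfl
      have hA : AW Z (h + 1) [] φ = (∑ c ∈ range (Z []), AW Z h [c] φ) *
          ENNReal.ofReal (1 / (1 + Cs (fun c => gh h (sh [c] Z)) (Z []))) := rfl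
      set C := Cs (fun c => gh h (sh [c] Z)) (Z []) with hCd
      have hC0 : 0 < C := by
        rcases hC.eq_or_lt with h0 | h0
        · rw [hgs, ← h0] at hg; simp at hg
        · exact h0
      have e2 : ∑ c ∈ range (Z []), AW Z h [c] φ = ENNReal.ofReal C * taH0 Z (h + 1) φ [] := by
        rw [taH0, hA, hgs, mul_assoc, ← ENNReal.ofReal_mul (by positivity), mul_left_comm,
          ← ENNReal.ofReal_mul hC]
        have : C * (1 / (1 + C) * (1 / (C / (1 + C)))) = 1 := by field_simp
        rw [this, ENNReal.ofReal_one, mul_one]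
      rw [e2, ← add_mul, ← ENNReal.ofReal_add hC (by linarith)]
      have e3 : ENNReal.ofReal (C + (Z [] - C)) = ((Z [] : ℕ) : ℝ≥0∞) := by
        rw [← ENNReal.ofReal_natCast]; congr 1; ring
      rw [e3, mul_comm, ← mul_assoc, ENNReal.inv_mul_cancel (by simpa using hk.ne') (by simp),
        one_mul]
    | cons i v =>
      obtain ⟨h, hh⟩ : ∃ h, n - (i :: v).length = h + 1 := ⟨n - (i :: v).length - 1, by omega⟩
      rw [ta_avg_cons]
      have e3 : ∀ c, n - (c :: i :: v).length = h := by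
        intro c
        simp only [List.length_cons] at hh ⊢
        omega
      have e4 : ∀ c, taH0 Z n φ (c :: i :: v) = AW Z h (c :: i :: v) φ +
            ENNReal.ofReal (1 - gh h (sh (c :: i :: v) Z)) * taH0 Z n φ (i :: v) := by
        intro c
        rw [taH0, e3]
      simp only [e4]
      refine ta_harm (g := fun c => gh h (sh (c :: i :: v) Z)) (fun c _ => (gh_box h _).1)
        (fun c _ => (gh_box h _).2) _ _ _ ?_
      rw [taH0, hh, AW, gh_succ_sh]
  · rintro z _ hab
    cases z with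
    | nil =>
      have : n = 0 := by simpa using hab.symm
      subst this
      simp [taH0, AW, gh]
    | cons i v =>
      have h0 : n - (i :: v).length = 0 := by omega
      simp only [taH0, h0, AW, gh]
      simp

lemma ta_inv0 (Z : V → ℕ) (n : ℕ) (u : ℕ → ℝ) (k : ℕ) :
    (abPath (step Z) (fun z : V => z.length = n) [] u k = wk Z [] u k ∨
      (abPath (step Z) (fun z : V => z.length = n) [] u k).length = n) ∧
    ∀ w, w <:+ abPath (step Z) (fun z : V => z.length = n) [] u k → ∃ j, wk Z [] u j = w := by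
  induction k with
  | zero => exact ⟨Or.inl rfl, fun w h => ⟨0, (List.suffix_nil.1 h).symm⟩⟩
  | succ k ih =>
    rw [abPath]
    set s := abPath (step Z) (fun z : V => z.length = n) [] u k with hs
    by_cases hab : s.length = n
    · rw [abStep_ab (Ab := fun z : V => z.length = n) hab]
      exact ⟨Or.inr hab, ih.2⟩
    · rw [abStep_not (Ab := fun z : V => z.length = n) hab]
      obtain ⟨h1, h3⟩ := ih
      have h1' : s = wk Z [] u k := h1.resolve_right hab
      have h4 : step Z s (u k) = wk Z [] u (k + 1) := by rw [h1', wk]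
      refine ⟨Or.inl h4, fun w h8 => ?_⟩
      rcases ta_step_cases Z s (u k) with ⟨c, _, h6⟩ | h6
      · rw [h6] at h8
        rcases List.suffix_cons_iff.1 h8 with h9 | h9
        · exact ⟨k + 1, by rw [← h4, h6, h9]⟩
        · exact h3 w h9
      · rw [h6] at h8
        exact h3 w (h8.trans (List.tail_suffix _))

theorem A0_thm : A0Stmt := by
  intro Z n hg
  refine ⟨fun u => (abFin (step Z) (fun z : V => z.length = n) [] u).getD [],
    (disc_abFin (disc_step Z) []).map fun o => o.getD [], fun φ hφ => ?_,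
    Filter.Eventually.of_forall fun u => ?_⟩
  · rw [ta_law0 Z n hg hφ, taH0, mul_left_comm, ← ENNReal.ofReal_mul hg.le,
      mul_one_div_cancel hg.ne', ENNReal.ofReal_one, mul_one]
  · beta_reduce
    cases hf : abFin (step Z) (fun z : V => z.length = n) [] u with
    | none => exact fun z hz => ⟨0, (List.suffix_nil.1 hz).symm⟩
    | some s =>
      obtain ⟨k, -, hk⟩ := abFin_some hf
      have hi := ta_inv0 Z n u k
      rw [hk] at hi
      exact hi.2

end Pool.Agent.H109Z.FrogGW
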