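import Pool.Agent.H109Z.Frog.Spec

set_option autoImplicit false

/-!
Absorbed Markov chains driven by iid uniform variables: the law of the absorption point.
-/

namespace Pool.Agent.H109Z.FrogGW

open MeasureTheory Function Filter Topology
open scoped ENNReal NNReal

section Chain

variable {S : Type} (τ : S → ℝ → S) (Ab : S → Prop)

open Classical in
/-- one step of the stopped chain -/
noncomputable def abStep (s : S) (a : ℝ) : S := if Ab s then s else τ s a

/-- the stopped chain -/
noncomputable def abPath (s : S) (u : ℕ → ℝ) : ℕ → S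
  | 0 => s
  | k + 1 => abStep τ Ab (abPath s u k) (u k)

open Classical in
/-- the absorption point -/
noncomputable def abFin (s : S) (u : ℕ → ℝ) : Option S :=
  if h : ∃ k, Ab (abPath τ Ab s u k) then some (abPath τ Ab s u h.choose) else none

/-- the transition operator -/
noncomputable def abT (f : S → ℝ≥0∞) (s : S) : ℝ≥0∞ := ∫⁻ a, f (abStep τ Ab s a) ∂unif

variable {τ Ab}

lemma abStep_ab {s : S} (h : Ab s) (a : ℝ) : abStep τ Ab s a = s := if_pos h

lemma abStep_not {s : S} (h : ¬ Ab s) (a : ℝ) : abStep τ Ab s a = τ s a := if_neg h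

lemma abPath_const {s : S} {u : ℕ → ℝ} {k : ℕ} (h : Ab (abPath τ Ab s u k)) (j : ℕ)
    (hj : k ≤ j) : abPath τ Ab s u j = abPath τ Ab s u k := by
  induction j, hj using Nat.le_induction with
  | base => rfl
  | succ j _ ih => rw [abPath, ih, abStep_ab h]

lemma abFin_eq {s : S} {u : ℕ → ℝ} {k : ℕ} (h : Ab (abPath τ Ab s u k)) :
    abFin τ Ab s u = some (abPath τ Ab s u k) := by
  have hex : ∃ k, Ab (abPath τ Ab s u k) := ⟨k, h⟩
  rw [abFin, dif_pos hex]
  rcases le_total k hex.choose with h1 | h1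
  · rw [abPath_const h _ h1]
  · rw [abPath_const hex.choose_spec _ h1]

lemma abFin_some {s s' : S} {u : ℕ → ℝ} (h : abFin τ Ab s u = some s') :
    ∃ k, Ab (abPath τ Ab s u k) ∧ abPath τ Ab s u k = s' := by
  by_cases hex : ∃ k, Ab (abPath τ Ab s u k)
  · obtain ⟨k, hk⟩ := hex
    rw [abFin_eq hk] at h
    exact ⟨k, hk, Option.some.inj h⟩
  · rw [abFin, dif_neg hex] at h
    cases h

lemma abPath_congr {s : S} {u w : ℕ → ℝ} (k : ℕ) (h : ∀ j < k, u j = w j) :
    abPath τ Ab s u k = abPath τ Ab s w k := by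
  induction k with
  | zero => rfl
  | succ k ih =>
    rw [abPath, abPath, ih fun j hj => h j (Nat.lt_succ_of_lt hj), h k (Nat.lt_succ_self k)]

lemma abPath_mem {G : Set S} (hcl : ∀ s ∈ G, ¬ Ab s → ∀ a, τ s a ∈ G) {s : S} (hs : s ∈ G)
    (u : ℕ → ℝ) (k : ℕ) : abPath τ Ab s u k ∈ G := by
  induction k with
  | zero => exact hs
  | succ k ih =>
    rw [abPath]
    by_cases h : Ab (abPath τ Ab s u k)
    · rwa [abStep_ab h]
    · rw [abStep_not h]; exact hcl _ ih h _

variable [Countable S]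

lemma disc_abStep (hτ : ∀ s, Disc (τ s)) (s : S) : Disc (abStep τ Ab s) := by
  by_cases h : Ab s
  · have : abStep τ Ab s = fun _ => s := funext fun a => abStep_ab h a
    rw [this]; exact Disc.const _
  · have : abStep τ Ab s = τ s := funext fun a => abStep_not h a
    rw [this]; exact hτ s

lemma disc_abPath (hτ : ∀ s, Disc (τ s)) (s : S) (k : ℕ) :
    Disc fun u : ℕ → ℝ => abPath τ Ab s u k := by
  induction k with
  | zero => exact Disc.const _
  | succ k ih =>
    exact ih.bind (g := fun x (u : ℕ → ℝ) => abStep τ Ab x (u k)) fun x =>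
      (disc_abStep hτ x).comp (measurable_pi_apply k)

lemma meas_abPath (hτ : ∀ s, Disc (τ s)) (s : S) (k : ℕ) (f : S → ℝ≥0∞) :
    Measurable fun u : ℕ → ℝ => f (abPath τ Ab s u k) :=
  (disc_abPath hτ s k).measurable (g := fun x _ => f x) fun _ => measurable_const

lemma disc_abFin (hτ : ∀ s, Disc (τ s)) (s : S) : Disc (abFin τ Ab s) := by
  have hs : ∀ s', MeasurableSet {u | abFin τ Ab s u = some s'} := by
    intro s'
    have : {u | abFin τ Ab s u = some s'} =
        ⋃ k, {u | Ab (abPath τ Ab s u k) ∧ abPath τ Ab s u k = s'} := by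
      ext u
      simp only [Set.mem_ofPred_eq, Set.mem_iUnion]
      exact ⟨abFin_some, fun ⟨k, h1, h2⟩ => by rw [abFin_eq h1, h2]⟩
    rw [this]
    exact MeasurableSet.iUnion fun k =>
      (disc_abPath hτ s k).set (g := fun x _ => Ab x ∧ x = s') fun _ => MeasurableSet.const _
  intro b
  cases b with
  | some s' => exact hs s'
  | none =>
    have : {u | abFin τ Ab s u = none} = (⋃ s', {u | abFin τ Ab s u = some s'})ᶜ := by
      ext u
      cases h : abFin τ Ab s u <;> simp [h]
    rw [this]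
    exact (MeasurableSet.iUnion hs).compl

instance : IsProbabilityMeasure UU := by
  unfold UU; infer_instance

lemma lint_abPath_succ (hτ : ∀ s, Disc (τ s)) (s : S) (k : ℕ) (f : S → ℝ≥0∞) :
    ∫⁻ u, f (abPath τ Ab s u (k + 1)) ∂UU = ∫⁻ u, abT τ Ab f (abPath τ Ab s u k) ∂UU := by
  unfold UU
  rw [lint_resample (mp_mix unif {k}) (meas_abPath hτ s (k + 1) f)]
  congr 1
  funext u
  have h1 : ∀ w : ℕ → ℝ, abPath τ Ab s (mix {k} u w) (k + 1) =
      abStep τ Ab (abPath τ Ab s u k) (w k) := by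
    intro w
    rw [abPath, abPath_congr (w := u) k fun j hj => mix_not_mem _ _ (by simpa using hj.ne),
      mix_mem _ _ (Set.mem_singleton k)]
  simp only [h1]
  have hm : Measurable fun a => f (abStep τ Ab (abPath τ Ab s u k) a) :=
    (disc_abStep hτ _).measurable (g := fun x _ => f x) fun _ => measurable_const
  exact (measurePreserving_eval_infinitePi (fun _ : ℕ => unif) k).lintegral_comp hm

lemma lint_abPath (hτ : ∀ s, Disc (τ s)) (s : S) (k : ℕ) (f : S → ℝ≥0∞) :
    ∫⁻ u, f (abPath τ Ab s u k) ∂UU = (abT τ Ab)^[k] f s := by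
  induction k generalizing f with
  | zero => simp [abPath]
  | succ k ih => rw [lint_abPath_succ hτ, ih, iterate_succ_apply]

open Classical in
lemma ab_term (hτ : ∀ s, Disc (τ s)) {G : Set S} (hG : G.Finite)
    (hcl : ∀ s ∈ G, ¬ Ab s → ∀ a, τ s a ∈ G)
    (hreach : ∀ s ∈ G, ∃ s', Ab s' ∧
      Relation.ReflTransGen (fun p q => ¬ Ab p ∧ unif {a | τ p a = q} ≠ 0) s s')
    {s : S} (hs : s ∈ G) : ∀ᵐ u ∂UU, ∃ k, Ab (abPath τ Ab s u k) := by
  let χ : S → ℝ≥0∞ := fun x => if Ab x then 0 else 1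
  let q : ℕ → S → ℝ≥0∞ := fun k => (abT τ Ab)^[k] χ
  have hq : ∀ k x, q k x = ∫⁻ u, χ (abPath τ Ab x u k) ∂UU := fun k x =>
    (lint_abPath hτ x k χ).symm
  have hq1 : ∀ k x, q k x ≤ 1 := by
    intro k x
    rw [hq]
    refine (lintegral_mono (g := fun _ => 1) fun u => ?_).trans (by simp)
    simp only [χ]; split_ifs <;> simp
  have hanti : ∀ x, Antitone fun k => q k x := by
    intro x
    refine antitone_nat_of_succ_le fun k => ?_
    rw [hq, hq]
    refine lintegral_mono fun u => ?_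
    by_cases h : Ab (abPath τ Ab x u k)
    · rw [abPath_const h (k + 1) (Nat.le_succ k)]
    · simp only [χ, if_neg h]; split_ifs <;> simp
  let ψ : S → ℝ≥0∞ := fun x => ⨅ k, q k x
  have hψ1 : ∀ x, ψ x ≤ 1 := fun x => (iInf_le _ 0).trans (hq1 0 x)
  have hψT : ∀ x, ψ x = abT τ Ab ψ x := by
    intro x
    have h1 : ψ x = ⨅ k, q (k + 1) x := by
      refine le_antisymm (le_iInf fun k => iInf_le _ (k + 1)) (le_iInf fun k => ?_)
      exact (iInf_le _ k).trans (hanti x (Nat.le_succ k))
    have h2 : ∀ k, q (k + 1) x = ∫⁻ a, q k (abStep τ Ab x a) ∂unif := by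
      intro k
      simp only [q]
      rw [iterate_succ_apply']
      rfl
    rw [h1]
    simp only [h2]
    rw [← lintegral_iInf]
    · rfl
    · exact fun k => (disc_abStep hτ x).measurable (g := fun y _ => q k y) fun _ => measurable_const
    · exact fun i j hij a => hanti _ hij
    · exact ((lintegral_mono (g := fun _ => 1) fun a => hq1 0 _).trans_lt (by simp)).ne
  obtain ⟨m, hm, hmax⟩ := Set.exists_max_image G ψ hG ⟨s, hs⟩
  have hprop : ∀ p r, Relation.ReflTransGen (fun p q => ¬ Ab p ∧ unif {a | τ p a = q} ≠ 0) p r →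
      p ∈ G → ψ p = ψ m → r ∈ G ∧ ψ r = ψ m := by
    intro p r h hp hpm
    induction h with
    | refl => exact ⟨hp, hpm⟩
    | @tail b c _ hbc ih =>
      obtain ⟨hb, hbm⟩ := ih
      obtain ⟨a0, ha0⟩ : {a | τ b a = c}.Nonempty :=
        nonempty_of_measure_ne_zero hbc.2
      have hc : c ∈ G := ha0 ▸ hcl b hb hbc.1 a0
      refine ⟨hc, ?_⟩
      by_contra hne
      have hmeas : Measurable fun a => ψ (τ b a) :=
        (hτ b).measurable (g := fun y _ => ψ y) fun _ => measurable_const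
      have h3 : ∫⁻ a, ψ (τ b a) ∂unif = ψ m := by
        rw [← hbm, hψT b, abT]
        simp only [abStep_not hbc.1]
      have h4 : (fun a => ψ (τ b a)) =ᵐ[unif] fun _ => ψ m := by
        refine ae_eq_of_ae_le_of_lintegral_le
          (Eventually.of_forall fun a => hmax _ (hcl b hb hbc.1 a)) ?_ aemeasurable_const ?_
        · rw [h3]; exact ((hψ1 m).trans_lt ENNReal.one_lt_top).ne
        · simp [h3]
      apply hbc.2
      refine measure_mono_null (fun a ha => ?_) h4
      have ha' : τ b a = c := ha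
      simp only [Set.mem_compl_iff, Set.mem_ofPred_eq, ha']
      exact hne
  obtain ⟨r, hr, hmr⟩ := hreach m hm
  have h0 : ψ m = 0 := by
    rw [← (hprop m r hmr hm rfl).2]
    refine le_antisymm ((iInf_le _ 0).trans ?_) zero_le
    simp [q, χ, hr]
  have h5 : ψ s = 0 := le_antisymm (h0 ▸ hmax s hs) zero_le
  rw [ae_iff]
  refine le_antisymm ?_ zero_le
  rw [← h5]
  refine le_iInf fun k => ?_
  rw [hq, ← lintegral_indicator_one]
  · refine lintegral_mono fun u => ?_
    by_cases h : ∃ k, Ab (abPath τ Ab s u k)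
    · simp [h]
    · have h' : ¬ Ab (abPath τ Ab s u k) := fun h' => h ⟨k, h'⟩
      simp only [χ, if_neg h']
      exact Set.indicator_le_self' (fun _ _ => zero_le) u
  · have : {u | ¬ ∃ k, Ab (abPath τ Ab s u k)} = ⋂ k, {u | ¬ Ab (abPath τ Ab s u k)} := by
      ext u; simp
    rw [this]
    exact MeasurableSet.iInter fun k =>
      (disc_abPath hτ s k).set (g := fun x _ => ¬ Ab x) fun _ => MeasurableSet.const _

theorem ab_law (hτ : ∀ s, Disc (τ s)) {G : Set S} (hG : G.Finite)
    (hcl : ∀ s ∈ G, ¬ Ab s → ∀ a, τ s a ∈ G)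
    (hreach : ∀ s ∈ G, ∃ s', Ab s' ∧
      Relation.ReflTransGen (fun p q => ¬ Ab p ∧ unif {a | τ p a = q} ≠ 0) s s')
    (H : S → ℝ≥0∞) (hH1 : ∀ s ∈ G, H s ≤ 1)
    (hh : ∀ s ∈ G, ¬ Ab s → ∫⁻ a, H (τ s a) ∂unif = H s)
    (Φ : Option S → ℝ≥0∞) (hΦ : ∀ s ∈ G, Ab s → Φ (some s) = H s) {s : S} (hs : s ∈ G) :
    ∫⁻ u, Φ (abFin τ Ab s u) ∂UU = H s := by
  have h1 : ∀ k, ∫⁻ u, H (abPath τ Ab s u k) ∂UU = H s := by
    intro k
    induction k with
    | zero => simp [abPath]
    | succ k ih =>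
      rw [lint_abPath_succ hτ, ← ih]
      congr 1
      funext u
      have hm := abPath_mem hcl hs u k
      by_cases h : Ab (abPath τ Ab s u k)
      · simp [abT, abStep_ab h]
      · simp only [abT, abStep_not h]
        exact hh _ hm h
  have h2 : Tendsto (fun k => ∫⁻ u, H (abPath τ Ab s u k) ∂UU) atTop
      (𝓝 (∫⁻ u, Φ (abFin τ Ab s u) ∂UU)) := by
    refine tendsto_lintegral_of_dominated_convergence (fun _ => 1)
      (fun k => meas_abPath hτ s k H)
      (fun k => Eventually.of_forall fun u => hH1 _ (abPath_mem hcl hs u k)) (by simp) ?_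
    filter_upwards [ab_term hτ hG hcl hreach hs] with u ⟨k, hk⟩
    rw [abFin_eq hk, hΦ _ (abPath_mem hcl hs u k) hk]
    refine tendsto_const_nhds.congr' ?_
    filter_upwards [eventually_ge_atTop k] with j hj
    rw [abPath_const hk j hj]
  simp only [h1] at h2
  exact (tendsto_nhds_unique tendsto_const_nhds h2).symm

end Chain

end Pool.Agent.H109Z.FrogGW
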